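import Pool.Agent.W978.QM.Stm

/-!
QM-SM1: the eight linear forms in one argument of a smooth quadrilinear form are not all proportional.
-/

namespace Pool.Agent.W174.QM.SM1

open Pool.Agent.W978.QM

theorem cf_zero (b : Fin 2 → Fin 2 → Fin 2 → Fin 2 → ℂ) (p : Fin 2 → ℂ)
    (h : ∀ j k l, b 0 j k l * p 0 + b 1 j k l * p 1 = 0) (q r s : Fin 2 → ℂ) :
    cf b p q r s = 0 := by
  unfold cf
  simp only [Fin.sum_univ_two]
  linear_combination q 0 * r 0 * s 0 * h 0 0 0 + q 0 * r 0 * s 1 * h 0 0 1 +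
    q 0 * r 1 * s 0 * h 0 1 0 + q 0 * r 1 * s 1 * h 0 1 1 + q 1 * r 0 * s 0 * h 1 0 0 +
    q 1 * r 0 * s 1 * h 1 0 1 + q 1 * r 1 * s 0 * h 1 1 0 + q 1 * r 1 * s 1 * h 1 1 1

theorem cf_add (b : Fin 2 → Fin 2 → Fin 2 → Fin 2 → ℂ) (p p' : Fin 2 → ℂ) (x y : ℂ)
    (v q r s : Fin 2 → ℂ) (h0 : v 0 = x * p 0 + y * p' 0) (h1 : v 1 = x * p 1 + y * p' 1) :
    cf b v q r s = x * cf b p q r s + y * cf b p' q r s := by
  unfold cf
  simp only [Fin.sum_univ_two, h0, h1]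
  ring

theorem cf_lin (b : Fin 2 → Fin 2 → Fin 2 → Fin 2 → ℂ) (p q r s : Fin 2 → ℂ) :
    cf b p q r s = cf b p q r (bv 0) * s 0 + cf b p q r (bv 1) * s 1 := by
  unfold cf bv
  simp only [Fin.sum_univ_two, Pi.single_apply]
  simp
  ring

/-- a linear form in two variables has a nonzero zero -/
theorem lin_zero (x y : ℂ) : ∃ s : Fin 2 → ℂ, s ≠ 0 ∧ x * s 0 + y * s 1 = 0 := by
  by_cases h : x = 0 ∧ y = 0
  · refine ⟨![1, 0], ?_, ?_⟩
    · intro h2
      have := congrFun h2 0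
      simp at this
    · simp [h.1]
  · refine ⟨![-y, x], ?_, ?_⟩
    · intro h2
      have h3 := congrFun h2 0
      have h4 := congrFun h2 1
      simp at h3 h4
      exact h ⟨h4, h3⟩
    · simp
      ring

/-- a second vector -/
theorem second (p : Fin 2 → ℂ) (hp : p ≠ 0) : ∃ p' : Fin 2 → ℂ, ∀ v : Fin 2 → ℂ, ∃ x y : ℂ,
    v 0 = x * p 0 + y * p' 0 ∧ v 1 = x * p 1 + y * p' 1 := by
  by_cases h : p 0 = 0
  · have h1 : p 1 ≠ 0 := by
      intro h1
      apply hp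
      funext i
      fin_cases i
      · exact h
      · exact h1
    refine ⟨![1, 0], fun v => ⟨v 1 / p 1, v 0, ?_, ?_⟩⟩
    · simp [h]
    · simp
      field_simp
  · refine ⟨![0, 1], fun v => ⟨v 0 / p 0, v 1 - v 0 / p 0 * p 1, ?_, ?_⟩⟩
    · simp
      field_simp
    · simp

/-- proportional forms have a common zero -/
theorem common (b : Fin 2 → Fin 2 → Fin 2 → Fin 2 → ℂ)
    (h : ∀ j k l j' k' l', b 0 j k l * b 1 j' k' l' - b 0 j' k' l' * b 1 j k l = 0) :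
    ∃ p : Fin 2 → ℂ, p ≠ 0 ∧ ∀ j k l, b 0 j k l * p 0 + b 1 j k l * p 1 = 0 := by
  by_cases h0 : ∀ j k l, b 0 j k l = 0 ∧ b 1 j k l = 0
  · refine ⟨![1, 0], ?_, fun j k l => ?_⟩
    · intro h2
      have := congrFun h2 0
      simp at this
    · simp [(h0 j k l).1]
  · push Not at h0
    obtain ⟨j, k, l, h1⟩ := h0
    refine ⟨![-(b 1 j k l), b 0 j k l], ?_, fun j' k' l' => ?_⟩
    · intro h2
      have h3 := congrFun h2 0
      have h4 := congrFun h2 1
      simp at h3 h4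
      exact h1 h4 h3
    · simp
      linear_combination h j k l j' k' l'

/-- **QM-SM1** -/
theorem sm1 (hBR : S_BR) : S_SM1 := by
  intro a hS σ
  by_contra hcon
  push Not at hcon
  set b : Fin 2 → Fin 2 → Fin 2 → Fin 2 → ℂ := fun i j k l => (cu a σ i j k l : ℂ) with hb
  obtain ⟨p, hp, hpz⟩ := common b (fun j k l j' k' l' => by
    have := hcon j k l j' k' l'
    show (cu a σ 0 j k l : ℂ) * (cu a σ 1 j' k' l' : ℂ) -
      (cu a σ 0 j' k' l' : ℂ) * (cu a σ 1 j k l : ℂ) = 0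
    exact_mod_cast this)
  obtain ⟨p', hp'⟩ := second p hp
  have he : (bv 0 : Fin 2 → ℂ) ≠ 0 := by
    intro h2
    have := congrFun h2 0
    simp [bv] at this
  obtain ⟨s, hs, hsz⟩ := lin_zero (cf b p' (bv 0) (bv 0) (bv 0)) (cf b p' (bv 0) (bv 0) (bv 1))
  have hz' : cf b p' (bv 0) (bv 0) s = 0 := by rw [cf_lin]; exact hsz
  set P : Fin 4 → Fin 2 → ℂ := fun m => (![p, bv 0, bv 0, s] : Fin 4 → Fin 2 → ℂ) (σ.symm m) with hP
  have hPs : ∀ i, P (σ i) = (![p, bv 0, bv 0, s] : Fin 4 → Fin 2 → ℂ) i := by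
    intro i
    rw [hP]
    simp
  have hPne : ∀ i, P i ≠ 0 := by
    intro i
    obtain ⟨m, rfl⟩ := σ.surjective i
    rw [hPs]
    fin_cases m
    · exact hp
    · exact he
    · exact he
    · exact hs
  have hval : ∀ Q : Fin 4 → Fin 2 → ℂ, qf a Q = cf b (Q (σ 0)) (Q (σ 1)) (Q (σ 2)) (Q (σ 3)) :=
    fun Q => hBR ℂ a σ Q
  have hP0 : qf a P = 0 := by
    rw [hval, hPs 0]
    exact cf_zero b p hpz _ _ _
  obtain ⟨i, v, hv⟩ := hS P hPne hP0
  apply hv
  obtain ⟨m, rfl⟩ := σ.surjective i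
  rw [hval]
  by_cases hm : m = 0
  · subst hm
    rw [Function.update_self, Function.update_of_ne (σ.injective.ne (by decide)),
      Function.update_of_ne (σ.injective.ne (by decide)),
      Function.update_of_ne (σ.injective.ne (by decide)), hPs 1, hPs 2, hPs 3]
    obtain ⟨x, y, h0, h1⟩ := hp' v
    rw [cf_add b p p' x y v _ _ _ h0 h1, cf_zero b p hpz]
    have : cf b p' ((![p, bv 0, bv 0, s] : Fin 4 → Fin 2 → ℂ) 1)
      ((![p, bv 0, bv 0, s] : Fin 4 → Fin 2 → ℂ) 2)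
      ((![p, bv 0, bv 0, s] : Fin 4 → Fin 2 → ℂ) 3) = 0 := hz'
    rw [this]
    ring
  · have h0 : Function.update P (σ m) v (σ 0) = p := by
      rw [Function.update_of_ne (σ.injective.ne (Ne.symm hm)), hPs 0]
      rfl
    rw [h0]
    exact cf_zero b p hpz _ _ _

end Pool.Agent.W174.QM.SM1
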